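import Mathlib
import Pool.Prelude.Def_F_1d73fb57

/-!
# Pairwise balanced designs: four counting inequalities
-/

set_option autoImplicit false

namespace Pool.Agent.Helper66.PB

open Finset

variable {V : Type*} [Fintype V] [DecidableEq V]

omit [Fintype V] in
theorem block_unique (P : Finset (Finset V)) (hP : P.IsPairwiseBalancedDesign) {x y : V}
    (hxy : x ≠ y) {B B' : Finset V} (hB : B ∈ P) (hB' : B' ∈ P) (hx : x ∈ B) (hy : y ∈ B)
    (hx' : x ∈ B') (hy' : y ∈ B') : B = B' := by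
  obtain ⟨D, -, hD⟩ := hP.2 {x, y} (card_pair hxy)
  have e1 : B = D := by
    refine hD _ ⟨hB, ?_⟩
    intro z hz
    simp only [mem_insert, mem_singleton] at hz
    rcases hz with rfl | rfl
    · exact hx
    · exact hy
  have e2 : B' = D := by
    refine hD _ ⟨hB', ?_⟩
    intro z hz
    simp only [mem_insert, mem_singleton] at hz
    rcases hz with rfl | rfl
    · exact hx'
    · exact hy'
  rw [e1, e2]

omit [Fintype V] in
theorem block_exists (P : Finset (Finset V)) (hP : P.IsPairwiseBalancedDesign) {x y : V}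
    (hxy : x ≠ y) : ∃ B ∈ P, x ∈ B ∧ y ∈ B := by
  obtain ⟨D, ⟨hD1, hD2⟩, -⟩ := hP.2 {x, y} (card_pair hxy)
  exact ⟨D, hD1, hD2 (by simp), hD2 (by simp)⟩

omit [Fintype V] in
theorem inter_le (P : Finset (Finset V)) (hP : P.IsPairwiseBalancedDesign) {B B' : Finset V}
    (hB : B ∈ P) (hB' : B' ∈ P) (h : B ≠ B') : #(B ∩ B') ≤ 1 := by
  rw [card_le_one]
  intro x hx y hy
  by_contra hxy
  rw [mem_inter] at hx hy
  exact h (block_unique P hP hxy hB hB' hx.1 hy.1 hx.2 hy.2)

/-- A2: the second moment of the degrees in a family of blocks. -/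
theorem second (P : Finset (Finset V)) (hP : P.IsPairwiseBalancedDesign) (L : Finset (Finset V))
    (hL : L ⊆ P) :
    (∑ B ∈ L, (#B : ℝ)) ^ 2 ≤ Fintype.card V * (∑ B ∈ L, (#B : ℝ) + (#L : ℝ) ^ 2) := by
  have h1 : ∀ B : Finset V, (#B : ℝ) = ∑ x : V, if x ∈ B then (1 : ℝ) else 0 := by
    intro B
    simp
  set d : V → ℝ := fun x => ∑ B ∈ L, if x ∈ B then (1 : ℝ) else 0 with hd
  have h2 : ∑ B ∈ L, (#B : ℝ) = ∑ x : V, d x := by
    rw [hd, sum_comm]
    exact sum_congr rfl fun B _ => h1 B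
  have h3 : ∑ x : V, d x ^ 2 = ∑ B ∈ L, ∑ B' ∈ L, (#(B ∩ B') : ℝ) := by
    have h4 : ∀ x, d x ^ 2 = ∑ B ∈ L, ∑ B' ∈ L, if x ∈ B ∩ B' then (1 : ℝ) else 0 := by
      intro x
      rw [hd, sq]
      simp only
      rw [sum_mul_sum]
      refine sum_congr rfl fun B _ => sum_congr rfl fun B' _ => ?_
      by_cases hx : x ∈ B <;> by_cases hy : x ∈ B' <;> simp [hx, hy]
    simp only [h4]
    rw [sum_comm]
    refine sum_congr rfl fun B _ => ?_
    rw [sum_comm]
    refine sum_congr rfl fun B' _ => ?_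
    exact (h1 _).symm
  have h5 : ∑ B ∈ L, ∑ B' ∈ L, (#(B ∩ B') : ℝ) ≤ ∑ B ∈ L, (#B : ℝ) + (#L : ℝ) ^ 2 := by
    have h6 : ∀ B ∈ L, ∑ B' ∈ L, (#(B ∩ B') : ℝ) ≤ (#B : ℝ) + #L := by
      intro B hB
      calc ∑ B' ∈ L, (#(B ∩ B') : ℝ) ≤ ∑ B' ∈ L, ((if B' = B then (#B : ℝ) else 0) + 1) := by
            refine sum_le_sum fun B' hB' => ?_
            by_cases h : B' = B
            · rw [if_pos h, h, inter_self]
              linarith
            · rw [if_neg h, zero_add]
              exact_mod_cast inter_le P hP (hL hB) (hL hB') (Ne.symm h)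
        _ = (#B : ℝ) + #L := by
            rw [sum_add_distrib, sum_ite_eq', if_pos hB]
            simp
    refine (sum_le_sum h6).trans ?_
    rw [sum_add_distrib, sum_const, nsmul_eq_mul]
    nlinarith
  rw [h2]
  calc (∑ x : V, d x) ^ 2 ≤ (Fintype.card V : ℝ) * ∑ x : V, d x ^ 2 := by
        have := sq_sum_le_card_mul_sum_sq (s := (univ : Finset V)) (f := d)
        rwa [card_univ] at this
    _ ≤ _ := by
        rw [h3, ← h2]
        exact mul_le_mul_of_nonneg_left h5 (by positivity)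

/-- A3: all pairs are covered. -/
theorem pairs (P : Finset (Finset V)) (hP : P.IsPairwiseBalancedDesign) :
    (Fintype.card V : ℝ) ^ 2 - Fintype.card V ≤ ∑ B ∈ P, (#B : ℝ) ^ 2 := by
  have h1 : (univ : Finset V).offDiag ⊆ P.biUnion fun B => B.offDiag := by
    intro p hp
    rw [mem_offDiag] at hp
    obtain ⟨B, hB, h1, h2⟩ := block_exists P hP hp.2.2
    rw [mem_biUnion]
    exact ⟨B, hB, mem_offDiag.2 ⟨h1, h2, hp.2.2⟩⟩
  have h2 := (card_le_card h1).trans card_biUnion_le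
  rw [offDiag_card, card_univ] at h2
  have h3 : ∑ B ∈ P, #B.offDiag ≤ ∑ B ∈ P, #B * #B := by
    refine sum_le_sum fun B _ => ?_
    rw [offDiag_card]
    exact Nat.sub_le _ _
  have h4 : Fintype.card V * Fintype.card V ≤ ∑ B ∈ P, #B * #B + Fintype.card V := by omega
  have h5 : (Fintype.card V : ℝ) * Fintype.card V ≤
      ∑ B ∈ P, (#B : ℝ) * #B + Fintype.card V := by exact_mod_cast h4
  have h6 : ∑ B ∈ P, (#B : ℝ) * #B = ∑ B ∈ P, (#B : ℝ) ^ 2 := sum_congr rfl fun B _ => by ring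
  rw [h6] at h5
  nlinarith

/-- A4: the pairs between a block and its complement. -/
theorem cross (P : Finset (Finset V)) (hP : P.IsPairwiseBalancedDesign) (β : Finset V)
    (hβ : β ∈ P) : #β * #βᶜ ≤ ∑ B ∈ P, #B := by
  have h1 : β ×ˢ βᶜ ⊆ (P.filter fun B => B ≠ β).biUnion fun B => (B ∩ β) ×ˢ B := by
    intro p hp
    rw [mem_product, mem_compl] at hp
    have hne : p.1 ≠ p.2 := by
      intro h
      rw [h] at hp
      exact hp.2 hp.1
    obtain ⟨B, hB, h1, h2⟩ := block_exists P hP hne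
    rw [mem_biUnion]
    refine ⟨B, mem_filter.2 ⟨hB, ?_⟩, mem_product.2 ⟨mem_inter.2 ⟨h1, hp.1⟩, h2⟩⟩
    intro h
    rw [h] at h2
    exact hp.2 h2
  have h2 := (card_le_card h1).trans card_biUnion_le
  rw [card_product] at h2
  refine h2.trans ?_
  calc ∑ B ∈ P.filter (fun B => B ≠ β), #((B ∩ β) ×ˢ B) ≤ ∑ B ∈ P.filter (fun B => B ≠ β), #B := by
        refine sum_le_sum fun B hB => ?_
        rw [mem_filter] at hB
        rw [card_product]
        calc #(B ∩ β) * #B ≤ 1 * #B := Nat.mul_le_mul_right _ (inter_le P hP hB.1 hβ hB.2)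
          _ = #B := one_mul _
    _ ≤ ∑ B ∈ P, #B := sum_le_sum_of_subset (filter_subset _ _)

/-- A5: a block with a point outside. -/
theorem big (P : Finset (Finset V)) (hP : P.IsPairwiseBalancedDesign) (β : Finset V)
    (hβ : β ∈ P) (y : V) (hy : y ∉ β) : #β ≤ #(P.filter fun B => #B = 2) + #βᶜ := by
  have hne : ∀ x ∈ β, x ≠ y := fun x hx h => hy (h ▸ hx)
  have hex : ∀ x : V, ∃ B : Finset V, x ∈ β → B ∈ P ∧ x ∈ B ∧ y ∈ B := by
    intro x
    by_cases hx : x ∈ β
    · obtain ⟨B, h1, h2, h3⟩ := block_exists P hP (hne x hx)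
      exact ⟨B, fun _ => ⟨h1, h2, h3⟩⟩
    · exact ⟨∅, fun h => absurd h hx⟩
  choose b hb using hex
  have hinj : ∀ x ∈ β, ∀ x' ∈ β, x' ∈ b x → x = x' := by
    intro x hx x' hx' h
    by_contra hxx
    obtain ⟨h1, h2, h3⟩ := hb x hx
    have := block_unique P hP hxx h1 hβ h2 h hx hx'
    rw [this] at h3
    exact hy h3
  have hz : ∀ x : V, ∃ z : V, x ∈ β → #(b x) ≠ 2 → z ∈ b x ∧ z ≠ x ∧ z ≠ y := by
    intro x
    by_cases h : x ∈ β ∧ #(b x) ≠ 2
    · obtain ⟨h1, h2, h3⟩ := hb x h.1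
      have h4 : 2 < #(b x) := lt_of_le_of_ne (hP.1 _ h1) (Ne.symm h.2)
      have h5 : ({x, y} : Finset V) ⊂ b x := by
        refine ⟨?_, ?_⟩
        · intro z hz
          simp only [mem_insert, mem_singleton] at hz
          rcases hz with rfl | rfl
          · exact h2
          · exact h3
        · intro hsub
          have := card_le_card hsub
          rw [card_pair (hne x h.1)] at this
          omega
      obtain ⟨z, hz1, hz2⟩ := exists_of_ssubset h5
      simp only [mem_insert, mem_singleton, not_or] at hz2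
      exact ⟨z, fun _ _ => ⟨hz1, hz2.1, hz2.2⟩⟩
    · exact ⟨x, fun h1 h2 => absurd ⟨h1, h2⟩ h⟩
  choose z hz using hz
  have h1 : #(β.filter fun x => #(b x) = 2) ≤ #(P.filter fun B => #B = 2) := by
    refine card_le_card_of_injOn b ?_ ?_
    · intro x hx
      rw [mem_coe, mem_filter] at hx
      rw [mem_coe, mem_filter]
      exact ⟨(hb x hx.1).1, hx.2⟩
    · intro x hx x' hx' h
      rw [mem_coe, mem_filter] at hx hx'
      refine hinj x hx.1 x' hx'.1 ?_
      rw [h]
      exact (hb x' hx'.1).2.1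
  have h2 : #(β.filter fun x => ¬ #(b x) = 2) ≤ #βᶜ := by
    refine card_le_card_of_injOn z ?_ ?_
    · intro x hx
      rw [mem_coe, mem_filter] at hx
      rw [mem_coe, mem_compl]
      obtain ⟨h3, h4, h5⟩ := hz x hx.1 hx.2
      intro h6
      exact h4 (hinj x hx.1 _ h6 h3).symm
    · intro x hx x' hx' h
      rw [mem_coe, mem_filter] at hx hx'
      obtain ⟨h3, h4, h5⟩ := hz x hx.1 hx.2
      obtain ⟨h3', h4', h5'⟩ := hz x' hx'.1 hx'.2
      obtain ⟨k1, k2, k3⟩ := hb x hx.1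
      obtain ⟨k1', k2', k3'⟩ := hb x' hx'.1
      rw [← h] at h3'
      have := block_unique P hP h5 k1 k1' h3 k3 h3' k3'
      refine hinj x hx.1 x' hx'.1 ?_
      rw [this]
      exact k2'
  have h3 := card_filter_add_card_filter_not (s := β) (fun x => #(b x) = 2)
  omega

end Pool.Agent.Helper66.PB
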