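import Pool.Agent.Helper66.PB.Comb

/-!
# Pairwise balanced designs with few blocks of each size: the numerical part
-/

set_option autoImplicit false

namespace Pool.Agent.Helper66.PB

open Finset

variable {V : Type*} [Fintype V] [DecidableEq V]

/-- the hypotheses: a design with at most `C √n` blocks of each size, `r = √n` -/
structure Hyp (P : Finset (Finset V)) (C r : ℝ) : Prop where
  pbd : P.IsPairwiseBalancedDesign
  ntr : ∀ B ∈ P, #B < Fintype.card V
  few : ∀ t : ℕ, ((P.filter fun B => #B = t).card : ℝ) ≤ C * r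
  sq : r ^ 2 = Fintype.card V
  one : 1 ≤ r
  C0 : 0 ≤ C

/-- B1: the large blocks. -/
theorem large {P : Finset (Finset V)} {C r : ℝ} (h : Hyp P C r) {δ : ℝ} (hδ : 0 < δ)
    (hδ1 : δ ≤ 1) : ∑ B ∈ P.filter (fun B => (1 + δ) * r < #B), (#B : ℝ) ≤ 2 / δ * r ^ 2 := by
  set L := P.filter (fun B => (1 + δ) * r < #B) with hL
  set S : ℝ := ∑ B ∈ L, (#B : ℝ) with hS
  have hr : 0 < r := by linarith [h.one]
  have h1 := second P h.pbd L (filter_subset _ _)
  rw [← h.sq, ← hS] at h1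
  have hS0 : 0 ≤ S := by positivity
  have h2 : (1 + δ) * r * #L ≤ S := by
    rw [hS]
    calc (1 + δ) * r * #L = ∑ _B ∈ L, ((1 + δ) * r) := by rw [sum_const, nsmul_eq_mul]; ring
      _ ≤ _ := sum_le_sum fun B hB => (mem_filter.1 hB).2.le
  have h3 : ((1 + δ) * r * #L) ^ 2 ≤ S ^ 2 := pow_le_pow_left₀ (by positivity) h2 2
  have h4 : (1 + δ) ^ 2 * S ^ 2 ≤ (1 + δ) ^ 2 * r ^ 2 * S + S ^ 2 := by
    calc (1 + δ) ^ 2 * S ^ 2 ≤ (1 + δ) ^ 2 * (r ^ 2 * (S + (#L : ℝ) ^ 2)) := by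
          exact mul_le_mul_of_nonneg_left h1 (by positivity)
      _ = (1 + δ) ^ 2 * r ^ 2 * S + ((1 + δ) * r * #L) ^ 2 := by ring
      _ ≤ _ := by linarith
  have h5 : δ * (2 + δ) * S ^ 2 ≤ (1 + δ) ^ 2 * r ^ 2 * S := by nlinarith
  rcases hS0.eq_or_lt with h0 | h0
  · rw [← h0]
    positivity
  have h6 : δ * (2 + δ) * S ≤ (1 + δ) ^ 2 * r ^ 2 := by
    have : (δ * (2 + δ) * S) * S ≤ ((1 + δ) ^ 2 * r ^ 2) * S := by nlinarith
    exact le_of_mul_le_mul_right this h0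
  have h7 : 2 * δ * S ≤ 4 * r ^ 2 := by
    have a1 : 2 * δ * S ≤ δ * (2 + δ) * S := by
      have : 0 ≤ δ ^ 2 * S := by positivity
      nlinarith
    have a2 : (1 + δ) ^ 2 * r ^ 2 ≤ 4 * r ^ 2 := by
      have : (1 + δ) ^ 2 ≤ 4 := by nlinarith
      exact mul_le_mul_of_nonneg_right this (by positivity)
    linarith
  rw [div_mul_eq_mul_div, le_div_iff₀ hδ]
  linarith

omit [DecidableEq V] in
/-- a sum over the blocks of size less than `M`, by sizes -/
theorem bysize {P : Finset (Finset V)} {C r : ℝ} (h : Hyp P C r) (M : ℕ) (g : ℕ → ℝ)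
    (hg : ∀ t, 0 ≤ g t) :
    ∑ B ∈ P.filter (fun B => #B < M), g #B ≤ C * r * ∑ t ∈ range M, g t := by
  have h1 : ∀ B ∈ P.filter (fun B => #B < M), #B ∈ range M := fun B hB =>
    mem_range.2 (mem_filter.1 hB).2
  rw [← sum_fiberwise_of_maps_to h1, mul_sum]
  refine sum_le_sum fun t _ => ?_
  have h2 : ∑ B ∈ (P.filter (fun B => #B < M)).filter (fun B => #B = t), g #B =
      (#((P.filter (fun B => #B < M)).filter (fun B => #B = t)) : ℝ) * g t := by
    rw [sum_congr rfl (g := fun _ => g t), sum_const, nsmul_eq_mul]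
    intro B hB
    rw [(mem_filter.1 hB).2]
  rw [h2]
  refine mul_le_mul_of_nonneg_right (le_trans ?_ (h.few t)) (hg t)
  have : #((P.filter (fun B => #B < M)).filter (fun B => #B = t)) ≤
      #(P.filter fun B => #B = t) := card_le_card (filter_subset_filter _ (filter_subset _ _))
  exact_mod_cast this

/-- B2: the sum of all sizes. -/
theorem total {P : Finset (Finset V)} {C r : ℝ} (h : Hyp P C r) :
    ∑ B ∈ P, (#B : ℝ) ≤ (6 * C + 2) * r ^ 3 := by
  have hr : 1 ≤ r := h.one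
  have hC := h.C0
  set M := ⌊2 * r⌋₊ + 1 with hM
  have hM1 : (M : ℝ) ≤ 2 * r + 1 := by
    rw [hM]
    push_cast
    linarith [Nat.floor_le (by positivity : 0 ≤ 2 * r)]
  have h1 := bysize h M (fun t => (t : ℝ)) (fun t => Nat.cast_nonneg t)
  have h2 : ∑ t ∈ range M, (t : ℝ) ≤ M * (2 * r) := by
    calc ∑ t ∈ range M, (t : ℝ) ≤ ∑ _t ∈ range M, (2 * r) := by
          refine sum_le_sum fun t ht => ?_
          have : t ≤ ⌊2 * r⌋₊ := by
            have := mem_range.1 ht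
            omega
          have h3 : (t : ℝ) ≤ ⌊2 * r⌋₊ := by exact_mod_cast this
          exact h3.trans (Nat.floor_le (by positivity))
      _ = M * (2 * r) := by rw [sum_const, nsmul_eq_mul, card_range]
  have h3 := large h (δ := 1) one_pos le_rfl
  have h4 : ∑ B ∈ P, (#B : ℝ) ≤ ∑ B ∈ P.filter (fun B => #B < M), (#B : ℝ) +
      ∑ B ∈ P.filter (fun B => (1 + 1) * r < #B), (#B : ℝ) := by
    rw [← sum_filter_add_sum_filter_not P (fun B => #B < M)]
    refine add_le_add le_rfl ?_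
    refine sum_le_sum_of_subset_of_nonneg ?_ fun B _ _ => Nat.cast_nonneg _
    intro B hB
    rw [mem_filter] at hB ⊢
    refine ⟨hB.1, ?_⟩
    have h5 : ⌊2 * r⌋₊ < #B := by omega
    have h6 := (Nat.floor_lt (by positivity : 0 ≤ 2 * r)).1 h5
    linarith
  have h5 : C * r * ∑ t ∈ range M, (t : ℝ) ≤ 6 * C * r ^ 3 := by
    calc C * r * ∑ t ∈ range M, (t : ℝ) ≤ C * r * (M * (2 * r)) := by gcongr
      _ ≤ C * r * ((2 * r + 1) * (2 * r)) := by gcongr
      _ ≤ C * r * ((3 * r) * (2 * r)) := by gcongr; linarith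
      _ = 6 * C * r ^ 3 := by ring
  have h6 : 2 / 1 * r ^ 2 ≤ 2 * r ^ 3 := by
    have : r ^ 2 * 1 ≤ r ^ 2 * r := by gcongr
    nlinarith
  have h7 : (6 * C + 2) * r ^ 3 = 6 * C * r ^ 3 + 2 * r ^ 3 := by ring
  rw [h7]
  exact h4.trans (add_le_add (h1.trans h5) (h3.trans h6))

/-- B3: no block is very large. -/
theorem maxblock {P : Finset (Finset V)} {C r : ℝ} (h : Hyp P C r) (hr2 : 2 * C ≤ r)
    (β : Finset V) (hβ : β ∈ P) : (#β : ℝ) ≤ 4 * (6 * C + 2) * r := by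
  have hr : 1 ≤ r := h.one
  have hC := h.C0
  have hn := h.ntr β hβ
  obtain ⟨y, hy⟩ : ∃ y, y ∉ β := by
    by_contra hno
    push Not at hno
    have : β = univ := eq_univ_iff_forall.2 hno
    rw [this, card_univ] at hn
    exact lt_irrefl _ hn
  have h1 := big P h.pbd β hβ y hy
  have h2 := h.few 2
  have h3 : ((#βᶜ : ℕ) : ℝ) = r ^ 2 - #β := by
    rw [card_compl, Nat.cast_sub hn.le, h.sq]
  have h4 : (#β : ℝ) ≤ #(P.filter fun B => #B = 2) + #βᶜ := by exact_mod_cast h1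
  have h5 : r ^ 2 / 4 ≤ (#βᶜ : ℝ) := by
    have a1 : C * r ≤ r ^ 2 / 2 := by nlinarith
    rw [h3] at h4 ⊢
    linarith
  have h6 : (#β : ℝ) * #βᶜ ≤ (6 * C + 2) * r ^ 3 := by
    refine le_trans ?_ (total h)
    have := cross P h.pbd β hβ
    exact_mod_cast this
  have h7 : (#β : ℝ) * (r ^ 2 / 4) ≤ (6 * C + 2) * r ^ 3 :=
    (mul_le_mul_of_nonneg_left h5 (Nat.cast_nonneg _)).trans h6
  have h8 : (#β : ℝ) * r ^ 2 ≤ (4 * (6 * C + 2) * r) * r ^ 2 := by nlinarith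
  exact le_of_mul_le_mul_right h8 (by positivity)

/-- the primitive -/
noncomputable def prim (a x : ℝ) : ℝ := x ^ 3 / 3 - a ^ 2 * x + 2 * a ^ 3 / 3

theorem prim_nonneg {a x : ℝ} (ha : 0 ≤ a) (hx : a ≤ x) : 0 ≤ prim a x := by
  have : prim a x = (x - a) ^ 2 * (x + 2 * a) / 3 := by
    unfold prim
    ring
  rw [this]
  have : 0 ≤ x + 2 * a := by linarith
  positivity

theorem prim_mono {a x y : ℝ} (ha : 0 ≤ a) (hx : a ≤ x) (hxy : x ≤ y) : prim a x ≤ prim a y := by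
  have : prim a y - prim a x = (y - x) * ((x ^ 2 + x * y + y ^ 2) / 3 - a ^ 2) := by
    unfold prim
    ring
  have h1 : 0 ≤ (x ^ 2 + x * y + y ^ 2) / 3 - a ^ 2 := by nlinarith
  have h2 : 0 ≤ (y - x) * ((x ^ 2 + x * y + y ^ 2) / 3 - a ^ 2) :=
    mul_nonneg (by linarith) h1
  linarith

theorem sumsq {a : ℝ} (ha : 0 ≤ a) (M : ℕ) :
    ∑ t ∈ range M, max ((t : ℝ) ^ 2 - a ^ 2) 0 ≤ if a ≤ M then prim a M else 0 := by
  induction M with
  | zero =>
    simp only [range_zero, sum_empty]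
    split_ifs with h
    · exact prim_nonneg ha h
    · exact le_rfl
  | succ M ih =>
    rw [sum_range_succ]
    by_cases h : a ≤ M
    · rw [if_pos h] at ih
      rw [if_pos (by push_cast; linarith)]
      have h1 : max ((M : ℝ) ^ 2 - a ^ 2) 0 = (M : ℝ) ^ 2 - a ^ 2 :=
        max_eq_left (by nlinarith)
      rw [h1]
      have h2 : prim a ((M + 1 : ℕ) : ℝ) - prim a M = (M : ℝ) ^ 2 + M + 1 / 3 - a ^ 2 := by
        unfold prim
        push_cast
        ring
      have h3 : (0 : ℝ) ≤ M := Nat.cast_nonneg M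
      linarith
    · rw [if_neg h] at ih
      have h0 : (0 : ℝ) ≤ M := Nat.cast_nonneg M
      push Not at h
      have h1 : max ((M : ℝ) ^ 2 - a ^ 2) 0 = 0 := max_eq_right (by nlinarith)
      rw [h1, add_zero]
      refine ih.trans ?_
      split_ifs with h2
      · exact prim_nonneg ha h2
      · exact le_rfl

/-- B6: the inequality for all thresholds. -/
theorem main {P : Finset (Finset V)} {C r : ℝ} (h : Hyp P C r) (hr2 : 2 * C ≤ r) {δ α : ℝ}
    (hδ : 0 < δ) (hδ1 : δ ≤ 1 / 2) (hr3 : 2 ≤ r) (hα : 0 ≤ α) (hα1 : α ≤ 1) :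
    r ^ 2 - 1 - (8 * (6 * C + 2) / δ) * r - 3 * C * δ * r ^ 2 - 3 * C * r ≤
      α ^ 2 * #P + C * ((1 - α) ^ 2 * (1 + 2 * α) / 3) * r ^ 2 := by
  have hr : 1 ≤ r := h.one
  have hC := h.C0
  set M := ⌊(1 + δ) * r⌋₊ + 1 with hM
  have hM1 : (M : ℝ) ≤ (1 + δ) * r + 1 := by
    rw [hM]
    push_cast
    linarith [Nat.floor_le (by positivity : 0 ≤ (1 + δ) * r)]
  have hM2 : (1 + δ) * r < M := by
    rw [hM]
    push_cast
    exact Nat.lt_floor_add_one _
  have ha : 0 ≤ α * r := by positivity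
  have hbig : ∑ B ∈ P.filter (fun B => (1 + δ) * r < #B), (#B : ℝ) ^ 2 ≤
      (8 * (6 * C + 2) / δ) * r ^ 3 := by
    calc ∑ B ∈ P.filter (fun B => (1 + δ) * r < #B), (#B : ℝ) ^ 2
        ≤ ∑ B ∈ P.filter (fun B => (1 + δ) * r < #B), (4 * (6 * C + 2) * r) * #B := by
          refine sum_le_sum fun B hB => ?_
          rw [sq]
          exact mul_le_mul_of_nonneg_right (maxblock h hr2 B (mem_filter.1 hB).1)
            (Nat.cast_nonneg _)
      _ = (4 * (6 * C + 2) * r) * ∑ B ∈ P.filter (fun B => (1 + δ) * r < #B), (#B : ℝ) := by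
          rw [mul_sum]
      _ ≤ (4 * (6 * C + 2) * r) * (2 / δ * r ^ 2) := by
          refine mul_le_mul_of_nonneg_left (large h hδ (by linarith)) (by positivity)
      _ = (8 * (6 * C + 2) / δ) * r ^ 3 := by ring
  have hsmall : ∑ B ∈ P.filter (fun B => #B < M), (#B : ℝ) ^ 2 ≤
      (α * r) ^ 2 * #P + C * r * prim (α * r) ((1 + δ) * r + 1) := by
    have h1 : ∀ B ∈ P.filter (fun B => #B < M), (#B : ℝ) ^ 2 ≤
        (α * r) ^ 2 + max ((#B : ℝ) ^ 2 - (α * r) ^ 2) 0 := by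
      intro B _
      have := le_max_left ((#B : ℝ) ^ 2 - (α * r) ^ 2) 0
      linarith
    refine (sum_le_sum h1).trans ?_
    rw [sum_add_distrib, sum_const, nsmul_eq_mul]
    refine add_le_add ?_ ?_
    · rw [mul_comm]
      refine mul_le_mul_of_nonneg_left ?_ (by positivity)
      exact_mod_cast card_le_card (filter_subset _ _)
    · refine (bysize h M (fun t => max ((t : ℝ) ^ 2 - (α * r) ^ 2) 0)
        fun t => le_max_right _ _).trans ?_
      refine mul_le_mul_of_nonneg_left ?_ (by positivity)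
      refine (sumsq ha M).trans ?_
      have h2 : α * r ≤ M := by
        have : α * r ≤ 1 * r := by gcongr
        have : 0 ≤ δ * r := by positivity
        linarith
      rw [if_pos h2]
      exact prim_mono ha h2 hM1
  have hall : ∑ B ∈ P, (#B : ℝ) ^ 2 ≤ ∑ B ∈ P.filter (fun B => #B < M), (#B : ℝ) ^ 2 +
      ∑ B ∈ P.filter (fun B => (1 + δ) * r < #B), (#B : ℝ) ^ 2 := by
    rw [← sum_filter_add_sum_filter_not P (fun B => #B < M)]
    refine add_le_add le_rfl ?_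
    refine sum_le_sum_of_subset_of_nonneg ?_ fun B _ _ => by positivity
    intro B hB
    rw [mem_filter] at hB ⊢
    refine ⟨hB.1, ?_⟩
    have h5 : ⌊(1 + δ) * r⌋₊ < #B := by omega
    exact (Nat.floor_lt (by positivity : 0 ≤ (1 + δ) * r)).1 h5
  have hp := pairs P h.pbd
  rw [← h.sq] at hp
  -- the primitive at the end point
  set η : ℝ := δ + 1 / r with hη
  have hη0 : 0 ≤ η := by positivity
  have hη1 : η ≤ 1 := by
    have : 1 / r ≤ 1 / 2 := one_div_le_one_div_of_le (by norm_num) hr3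
    linarith
  have hprim : prim (α * r) ((1 + δ) * r + 1) ≤
      r ^ 3 * ((1 - α) ^ 2 * (1 + 2 * α) / 3 + 3 * η) := by
    have e1 : (1 + δ) * r + 1 = (1 + η) * r := by
      rw [hη]
      field_simp
      ring
    rw [e1]
    have e2 : prim (α * r) ((1 + η) * r) = r ^ 3 * ((1 - α) ^ 2 * (1 + 2 * α) / 3 +
        (η + η ^ 2 + η ^ 3 / 3 - α ^ 2 * η)) := by
      unfold prim
      ring
    rw [e2]
    refine mul_le_mul_of_nonneg_left ?_ (by positivity)
    have a1 : η ^ 2 ≤ η := by nlinarith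
    have a2 : η ^ 3 ≤ η := by nlinarith
    have a3 : 0 ≤ α ^ 2 * η := by positivity
    linarith
  have hfin : r ^ 4 - r ^ 2 ≤ (α * r) ^ 2 * #P +
      C * r * (r ^ 3 * ((1 - α) ^ 2 * (1 + 2 * α) / 3 + 3 * η)) +
      (8 * (6 * C + 2) / δ) * r ^ 3 := by
    have := mul_le_mul_of_nonneg_left hprim (by positivity : 0 ≤ C * r)
    have e : (r ^ 2) ^ 2 = r ^ 4 := by ring
    rw [e] at hp
    linarith
  have hr0 : 0 < r ^ 2 := by positivity
  have e3 : r ^ 3 * η = δ * r ^ 3 + r ^ 2 := by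
    rw [hη]
    field_simp
  refine le_of_mul_le_mul_right ?_ hr0
  have e4 : C * r * (r ^ 3 * ((1 - α) ^ 2 * (1 + 2 * α) / 3 + 3 * η)) =
      C * ((1 - α) ^ 2 * (1 + 2 * α) / 3) * r ^ 4 + 3 * C * r * (δ * r ^ 3 + r ^ 2) := by
    rw [← e3]
    ring
  rw [e4] at hfin
  have e5 : (r ^ 2 - 1 - (8 * (6 * C + 2) / δ) * r - 3 * C * δ * r ^ 2 - 3 * C * r) * r ^ 2 =
      (r ^ 4 - r ^ 2) - (8 * (6 * C + 2) / δ) * r ^ 3 - 3 * C * r * (δ * r ^ 3 + r ^ 2) := by ring
  have e6 : (α ^ 2 * #P + C * ((1 - α) ^ 2 * (1 + 2 * α) / 3) * r ^ 2) * r ^ 2 =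
      (α * r) ^ 2 * #P + C * ((1 - α) ^ 2 * (1 + 2 * α) / 3) * r ^ 4 := by ring
  rw [e5, e6]
  linarith

end Pool.Agent.Helper66.PB
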